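import Pool.Agent.H.MP_0234e1_an.C

set_option autoImplicit false
open Polynomial Filter Topology

namespace Pool.Agent.Results.MP_0234e1_an.Yes

/-- The `p`-variance `σ_p(F)` of the zeros of `F` (listed with multiplicity). -/
noncomputable def sigma (p : ℝ) (F : ℂ[X]) : ℝ :=
  ⨅ c : ℂ, ((1 / (F.natDegree : ℝ)) * (F.roots.map fun z => ‖z - c‖ ^ p).sum) ^ (1 / p)

theorem result : ∃ K : ℕ → ℝ, (∀ n, 1 ≤ K n) ∧ Tendsto K atTop (𝓝 1) ∧
    ∀ p : ℝ, 1 ≤ p → ∀ F : ℂ[X], 2 ≤ F.natDegree → ∀ z ∈ F.roots,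
      ∃ w ∈ F.derivative.roots, ‖z - w‖ ≤ K F.natDegree * sigma p F := by
  obtain ⟨K, h1, h2, h3⟩ := Pool.Agent.H.MP_0234e1_an.bd_main
  refine ⟨K, h1, h2, fun p hp F hF z hz => ?_⟩
  have hK : 0 < K F.natDegree := one_pos.trans_le (h1 _)
  obtain ⟨b, hb, -⟩ := h3 _ F rfl hF 0 z hz
  obtain ⟨w, hw, hmin⟩ := F.derivative.roots.toFinset.exists_min_image (fun w => ‖z - w‖)
    ⟨b, Multiset.mem_toFinset.2 hb⟩
  refine ⟨w, Multiset.mem_toFinset.1 hw, ?_⟩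
  rw [← div_le_iff₀' hK]
  refine le_ciInf fun c => ?_
  obtain ⟨b, hb, hab⟩ := h3 _ F rfl hF c z hz
  rw [div_le_iff₀' hK]
  refine ((hmin b (Multiset.mem_toFinset.2 hb)).trans hab).trans
    (mul_le_mul_of_nonneg_left ?_ hK.le)
  obtain ⟨x, hx⟩ := Pool.Agent.H.MP_0234e1_an.exists_fin F.roots
    IsAlgClosed.card_roots_eq_natDegree
  have hn : (F.natDegree : ℝ) ≠ 0 := by
    have : F.natDegree ≠ 0 := by omega
    exact_mod_cast this
  have := Real.arith_mean_le_rpow_mean Finset.univ (fun _ => 1 / (F.natDegree : ℝ))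
    (fun k => ‖x k - c‖) (fun _ _ => by positivity) (by simp [hn]) (fun _ _ => norm_nonneg _) hp
  rw [← Finset.mul_sum, ← Finset.mul_sum] at this
  rw [← hx, Multiset.map_map, Multiset.map_map]
  exact this

end Pool.Agent.Results.MP_0234e1_an.Yes
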